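import Mathlib
import Pool.Agent.R367.IG.Wrap

/-!
# Split embedding problems over Hilbertian fields with kernel `(G ≀ S_n)' ≀ A_(8 k + 4)`

`K` is any Hilbertian field of characteristic `0` (the hypothesis is that of the frozen statement
S03429), `F₁/K` any finite Galois extension with group `Γ`, `G` any finite group (no hypothesis)
with any action `φ` of `Γ`, and `χ : Γ → {1, -1}` any character.

* `Wr G n` is the wreath product `G ≀ S_n = (Fin n → G) ⋊ Perm (Fin n)`; `wrAct φ n` is the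
  coordinatewise action of `Γ` on it, and `EG φ n` is the semidirect product `(G ≀ S_n) ⋊ Γ`.
* `TwGrp φ χ n` is the group of the elements `(f, σ, ρ)` of `EG φ n` with `∏ [f i] = 1` in the
  abelianization of `G` and `sign σ = χ ρ`; `twPr φ χ n (f, σ, ρ) = ρ`.
* `KerIsComm φ χ n`: the kernel of `twPr φ χ n` is perfect and isomorphic to the commutator subgroup
  of `G ≀ S_n`.
* `Tow φ χ n r` is the group of all `(x, ρ)` with `x` in `B ≀ A_r`, `B = TwGrp φ χ n`, `ρ` in `Γ` and
  `twPr φ χ n (x.left i) = ρ` for every `i`; `towPr φ χ n r (x, ρ) = ρ`. So the kernel of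
  `towPr φ χ n r` is `(ker (twPr φ χ n)) ≀ A_r`.
* `Splits α`: `α` has a section.

The theorem: for all `n ≥ ((3 |G| + 2)!)^3` the kernel of `twPr φ χ n` is perfect and isomorphic
to the commutator subgroup of `G ≀ S_n`, and for all large `k` the map `towPr φ χ n (8 k + 4)` has a
section and the split embedding problem that it defines has a proper solution over `K`.
-/

set_option autoImplicit false

open Pool.Agent.H391R2 Pool.Agent.H391R2.T4 Pool.Agent.R367.IG

namespace Pool.Agent.Results.MP_e9d732_al.CommutatorTowers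

/-- Hilbertian fields, with the words of the frozen statement `S03429`. -/
def Hilbertian (K : Type) [Field K] : Prop :=
  ∀ (f : Polynomial (Polynomial K)), f.Monic → Irreducible f →
    (f.map (algebraMap (Polynomial K) (FractionRing (Polynomial K)))).Separable →
    ∀ g : Polynomial K, g ≠ 0 →
      ∃ a : K, g.eval a ≠ 0 ∧ Irreducible (f.map (Polynomial.evalRingHom a))

/-- The embedding problem `α : B → Gal(F₁/K)` has a proper solution over `K`. -/
def ProperSol (K F₁ B : Type) [Field K] [Field F₁] [Algebra K F₁] [Group B]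
    (α : B →* (F₁ ≃ₐ[K] F₁)) : Prop :=
  ∃ (F : Type) (_ : Field F) (_ : Algebra K F) (_ : Algebra F₁ F) (_ : IsScalarTower K F₁ F)
    (_ : FiniteDimensional K F) (_ : IsGalois K F) (γ : (F ≃ₐ[K] F) ≃* B),
    ∀ (σ : F ≃ₐ[K] F) (x : F₁), σ (algebraMap F₁ F x) = algebraMap F₁ F (α (γ σ) x)

end Pool.Agent.Results.MP_e9d732_al.CommutatorTowers

open Pool.Agent.Results.MP_e9d732_al.CommutatorTowers in
theorem Pool.Agent.Results.MP_e9d732_al.CommutatorTowers.result :
    ∀ (K : Type) [Field K] [CharZero K], Hilbertian K →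
      ∀ (F₁ : Type) [Field F₁] [Algebra K F₁] [FiniteDimensional K F₁] [IsGalois K F₁]
      (G : Type) [Group G] [Finite G] (φ : (F₁ ≃ₐ[K] F₁) →* MulAut G)
      (χ : (F₁ ≃ₐ[K] F₁) →* ℤˣ) (n : ℕ), ((3 * Nat.card G + 2).factorial) ^ 3 ≤ n →
        KerIsComm φ χ n ∧ ∃ k₀ : ℕ, ∀ k ≥ k₀, Splits (towPr φ χ n (8 * k + 4)) ∧
          ProperSol K F₁ (Tow φ χ n (8 * k + 4)) (towPr φ χ n (8 * k + 4)) := by
  intro K _ _ hK F₁ _ _ _ _ G _ _ φ χ n hn
  have h5 : 5 ≤ n := five_le Nat.card_pos hn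
  obtain ⟨k₀, hk₀⟩ := reg_towPr K F₁ G φ χ n hn
  refine ⟨kerIsComm φ χ h5, k₀, fun k hk => ⟨tow_splits φ χ h5 _, ?_⟩⟩
  obtain ⟨F, i1, i2, i3, i4, i5, i6, i7, i8, γ, hγ, -⟩ := hk₀ k hk
  obtain ⟨F', j1, j2, j3, j4, j5, j6, γ', hγ'⟩ := H33.hilbert_spec K hK F₁ _
    (towPr φ χ n (8 * k + 4)) ⟨F, i1, i2, i3, i4, i5, i6, i7, i8, γ, hγ⟩
  exact ⟨F', j1, j2, j3, j4, j5, j6, γ', fun σ x => by
    rw [hγ', AlgEquiv.restrictNormal_commutes]⟩
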