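import Mathlib
import Pool.Agent.R367.IG.Wrap

/-!
# Split embedding problems over Hilbertian fields with kernel the norm-one subgroup of `G ≀ S_n`

`K` is any Hilbertian field of characteristic `0` (the hypothesis is that of the frozen statement
S03429), `F₁/K` any finite Galois extension with group `Γ`, `G` any finite group with any action
`φ` of `Γ`.

* `Wr G n` is the wreath product `G ≀ S_n = (Fin n → G) ⋊ Perm (Fin n)`; `wrAct φ n` is the
  coordinatewise action of `Γ` on it, and `EG φ n` is the semidirect product `(G ≀ S_n) ⋊ Γ`.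
* `NOGrp φ n` is the group of the elements `(f, σ, ρ)` of `EG φ n` with `∏ [f i] = 1` in the
  abelianization of `G`; `noPr φ n (f, σ, ρ) = ρ`. The kernel of `noPr φ n` is the norm-one
  subgroup `{(f, σ) : ∏ [f i] = 1}` of `G ≀ S_n`.
* `Splits α`: `α` has a section.

The theorem: for all `n ≥ ((3 |G| + 2)!)^3` the map `noPr φ n` has a section, and this split
embedding problem has a proper solution over `K`.
-/

set_option autoImplicit false

open Pool.Agent.H391R2 Pool.Agent.H391R2.T4 Pool.Agent.R367.IG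

namespace Pool.Agent.Results.MP_e9d732_al.NormOneKernels

/-- Hilbertian fields, with the words of the frozen statement `S03429`. -/
def Hilbertian (K : Type) [Field K] : Prop :=
  ∀ (f : Polynomial (Polynomial K)), f.Monic → Irreducible f →
    (f.map (algebraMap (Polynomial K) (FractionRing (Polynomial K)))).Separable →
    ∀ g : Polynomial K, g ≠ 0 →
      ∃ a : K, g.eval a ≠ 0 ∧ Irreducible (f.map (Polynomial.evalRingHom a))

/-- The embedding problem `α : B → Gal(F₁/K)` has a proper solution over `K`. -/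
def ProperSol (K F₁ B : Type) [Field K] [Field F₁] [Algebra K F₁] [Group B]
    (α : B →* (F₁ ≃ₐ[K] F₁)) : Prop :=
  ∃ (F : Type) (_ : Field F) (_ : Algebra K F) (_ : Algebra F₁ F) (_ : IsScalarTower K F₁ F)
    (_ : FiniteDimensional K F) (_ : IsGalois K F) (γ : (F ≃ₐ[K] F) ≃* B),
    ∀ (σ : F ≃ₐ[K] F) (x : F₁), σ (algebraMap F₁ F x) = algebraMap F₁ F (α (γ σ) x)

end Pool.Agent.Results.MP_e9d732_al.NormOneKernels

open Pool.Agent.Results.MP_e9d732_al.NormOneKernels in
theorem Pool.Agent.Results.MP_e9d732_al.NormOneKernels.result :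
    ∀ (K : Type) [Field K] [CharZero K], Hilbertian K →
      ∀ (F₁ : Type) [Field F₁] [Algebra K F₁] [FiniteDimensional K F₁] [IsGalois K F₁]
      (G : Type) [Group G] [Finite G] (φ : (F₁ ≃ₐ[K] F₁) →* MulAut G) (n : ℕ),
      ((3 * Nat.card G + 2).factorial) ^ 3 ≤ n →
        Splits (noPr φ n) ∧ ProperSol K F₁ (NOGrp φ n) (noPr φ n) := by
  intro K _ _ hK F₁ _ _ _ _ G _ _ φ n hn
  refine ⟨no_splits φ n, ?_⟩
  obtain ⟨F, i1, i2, i3, i4, i5, i6, i7, i8, γ, hγ, -⟩ := reg_noPr K F₁ G φ n hn
  obtain ⟨F', j1, j2, j3, j4, j5, j6, γ', hγ'⟩ := H33.hilbert_spec K hK F₁ (NOGrp φ n) (noPr φ n)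
    ⟨F, i1, i2, i3, i4, i5, i6, i7, i8, γ, hγ⟩
  exact ⟨F', j1, j2, j3, j4, j5, j6, γ', fun σ x => by
    rw [hγ', AlgEquiv.restrictNormal_commutes]⟩
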