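import Mathlib
import Pool.Agent.R70.IG.EP

/-!
# Split embedding problems over Hilbertian fields after a base change of degree `p^∞`

Let `K` be any Hilbertian field, of any characteristic (the hypothesis is that of the frozen
statement `S03429`), `F₁/K` any finite Galois extension and `A` an infinite set of positive
integers, for example the set of all powers of a prime `p`. Then there is one separable algebraic
extension `F` of `K` such that

* the degree of every finite subextension of `F/K` divides a product of distinct elements of `A` (so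
  it is a power of `p` in the example),
* all finite split embedding problems for `F₁/K`, and more generally all weakly solvable ones, become
  properly solvable over `F` at the same time: for every surjection `π : H → Gal(F₁/K)` which is
  weakly solvable over `K` there is a Galois extension `N/F` which contains `F₁` and an isomorphism
  `γ : Gal(N/F) → H` with `π ∘ γ` the restriction to `F₁` (in particular `F` is linearly disjoint
  from `F₁` over `K`), and the same for the fibre product over `Gal(F₁/K)` of any countable family of
  such `π`.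
-/

set_option autoImplicit false

namespace Pool.Agent.Results.MP_e9d732_al.SparseBaseChange

/-- The fibre product of a family of homomorphisms `π j : H j → Γ`: all `(x, ρ)` with
`π j (x j) = ρ` for every `j`. -/
def FibreProduct {Γ J : Type} [Group Γ] {H : J → Type} [∀ j, Group (H j)]
    (π : ∀ j, H j →* Γ) : Subgroup ((∀ j, H j) × Γ) where
  carrier := {x | ∀ j, π j (x.1 j) = x.2}
  one_mem' := fun j => map_one (π j)
  mul_mem' := by
    intro a b ha hb j
    change π j (a.1 j * b.1 j) = a.2 * b.2
    rw [map_mul, ha, hb]
  inv_mem' := by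
    intro a ha j
    change π j (a.1 j)⁻¹ = (a.2)⁻¹
    rw [map_inv, ha]

/-- The degree of every finite subextension of `F / K` divides a product of distinct elements
of `A`. -/
def DegreesIn (A : Set ℕ) (K F : Type) [Field K] [Field F] [Algebra K F] : Prop :=
  ∀ M : IntermediateField K F, FiniteDimensional K M →
    ∃ T : Finset ℕ, (T : Set ℕ) ⊆ A ∧ Module.finrank K M ∣ ∏ a ∈ T, a

/-- The embedding problem `π : H → Gal(F₁/K)` is weakly solvable: there are a finite Galois extension
`L'/K` containing `F₁` and a homomorphism `s : Gal(L'/K) → H` with `π ∘ s` the restriction (for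
example `L' = F₁` and `s` a section of `π`, when the problem is split). -/
def WeaklySolvable (K F₁ H : Type) [Field K] [Field F₁] [Algebra K F₁] [Normal K F₁] [Group H]
    (π : H →* (F₁ ≃ₐ[K] F₁)) : Prop :=
  ∃ (L' : Type) (_ : Field L') (_ : Algebra K L') (_ : FiniteDimensional K L')
      (_ : IsGalois K L') (_ : Algebra F₁ L') (_ : IsScalarTower K F₁ L')
      (s : (L' ≃ₐ[K] L') →* H), ∀ ρ, π (s ρ) = ρ.restrictNormal F₁

/-- The embedding problem over `F` given by `F₁` and the projection to `Gal(F₁/K)` of the fibre
product of the `π j` has a proper solution: there are a Galois extension `N` of `F` containing `F₁`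
(over `K`) and an isomorphism `γ` of `Gal(N/F)` with the fibre product, with continuous components,
such that every `σ` in `Gal(N/F)` acts on `F₁` as the component of `γ σ` in `Gal(F₁/K)`. -/
def ProperSolOver (K F₁ F : Type) [Field K] [Field F₁] [Algebra K F₁] [Field F] [Algebra K F]
    {J : Type} {H : J → Type} [∀ j, Group (H j)] (π : ∀ j, H j →* (F₁ ≃ₐ[K] F₁)) : Prop :=
  ∃ (N : Type) (_ : Field N) (_ : Algebra F N) (_ : Algebra F₁ N) (_ : Algebra K N)
    (_ : IsScalarTower K F N) (_ : IsScalarTower K F₁ N) (_ : IsGalois F N)
    (γ : (N ≃ₐ[F] N) ≃* FibreProduct π),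
    (∀ j, IsOpen {σ : N ≃ₐ[F] N | (γ σ).1.1 j = 1}) ∧
    ∀ (σ : N ≃ₐ[F] N) (x : F₁), σ (algebraMap F₁ N x) = algebraMap F₁ N ((γ σ).1.2 x)

end Pool.Agent.Results.MP_e9d732_al.SparseBaseChange

open Pool.Agent.Results.MP_e9d732_al.SparseBaseChange in
theorem Pool.Agent.Results.MP_e9d732_al.SparseBaseChange.result :
    ∀ (K : Type) [Field K],
      (∀ (f : Polynomial (Polynomial K)), f.Monic → Irreducible f →
          (f.map (algebraMap (Polynomial K) (FractionRing (Polynomial K)))).Separable →
          ∀ g : Polynomial K, g ≠ 0 →
            ∃ a : K, g.eval a ≠ 0 ∧ Irreducible (f.map (Polynomial.evalRingHom a))) →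
      ∀ (F₁ : Type) [Field F₁] [Algebra K F₁] [FiniteDimensional K F₁] [IsGalois K F₁]
        (A : Set ℕ), A.Infinite → 0 ∉ A →
        ∃ (F : Type) (_ : Field F) (_ : Algebra K F), Algebra.IsSeparable K F ∧
          DegreesIn A K F ∧
          ∀ (J : Type) [Countable J] (H : J → Type) [∀ j, Group (H j)] [∀ j, Finite (H j)]
            (π : ∀ j, H j →* (F₁ ≃ₐ[K] F₁)), (∀ j, Function.Surjective (π j)) →
            (∀ j, WeaklySolvable K F₁ (H j) (π j)) → ProperSolOver K F₁ F π := by
  intro K _ hK F₁ _ _ _ _ A hA h0
  obtain ⟨F, i1, i2, h1, h2, h3⟩ := Pool.Agent.R70.IG.main_EP K hK F₁ A hA h0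
  exact ⟨F, i1, i2, h1, h2, fun J _ H _ _ π hπ hw => h3 J H π hπ hw⟩
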