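import Mathlib
import Pool.Agent.R768.SG.Desc

/-!
# Split embedding problems and local conditions of Scholz type

Every finite split embedding problem `G → Gal(F₁/K)` over a field `K` is dominated by a finite
split embedding problem `Γ → G → Gal(F₁/K)` with abelian kernel of `Γ → G`, every solution of which
gives a solution `F` of the first one such that `F/F₁` satisfies strong local conditions at all
orderings and all discrete valuations of `F₁`.
-/

set_option autoImplicit false

open scoped Pointwise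

namespace Pool.Agent.Results.MP_e9d732_al.SplitScholzCover

open Pool.Agent.R768.SG

/-- The embedding problem `α` has a proper solution. -/
def HasSolution {K F₁ G : Type} [Field K] [Field F₁] [Algebra K F₁] [Group G]
    (α : G →* (F₁ ≃ₐ[K] F₁)) : Prop :=
  ∃ (F : Type) (_ : Field F) (_ : Algebra K F) (_ : Algebra F₁ F) (_ : IsScalarTower K F₁ F)
    (γ : (F ≃ₐ[K] F) ≃* G), FiniteDimensional K F ∧ IsGalois K F ∧
      ∀ (σ : F ≃ₐ[K] F) (x : F₁), σ (algebraMap F₁ F x) = algebraMap F₁ F (α (γ σ) x)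

/-- The embedding problem `α` has a proper solution `F` such that `Good F₁ F M` holds. -/
def HasLocalSolution {K F₁ G : Type} [Field K] [Field F₁] [Algebra K F₁] [Group G]
    (α : G →* (F₁ ≃ₐ[K] F₁)) (M : ℕ) : Prop :=
  ∃ (F : Type) (_ : Field F) (_ : Algebra K F) (_ : Algebra F₁ F) (_ : IsScalarTower K F₁ F)
    (γ : (F ≃ₐ[K] F) ≃* G), FiniteDimensional K F ∧ IsGalois K F ∧
      (∀ (σ : F ≃ₐ[K] F) (x : F₁), σ (algebraMap F₁ F x) = algebraMap F₁ F (α (γ σ) x)) ∧
      Good F₁ F M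

theorem main {K F₁ G : Type} [Field K] [Field F₁] [Algebra K F₁] [Group G] [Finite G]
    (α : G →* (F₁ ≃ₐ[K] F₁)) (s : (F₁ ≃ₐ[K] F₁) →* G) (hs : ∀ x, α (s x) = x) (M : ℕ)
    (h : HasSolution (α.comp (spr α s (Nat.card α.ker ^ (M + 1))))) : HasLocalSolution α M := by
  obtain ⟨E, _, _, _, _, γ, hfin, hgal, hact⟩ := h
  have hact' : ∀ (σ : E ≃ₐ[K] E) (x : F₁),
      σ (algebraMap F₁ E x) = algebraMap F₁ E (α (spr α s _ (γ σ)) x) := hact
  let F : IntermediateField K E := FF α s _ γ
  let a : Algebra F₁ F :=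
    ((algebraMap F₁ E).codRestrict F (fun x => T_mem α s hs _ γ hact' x)).toAlgebra
  have t1 : IsScalarTower K F₁ F := IsScalarTower.of_algebraMap_eq fun x => by
    apply Subtype.ext
    exact IsScalarTower.algebraMap_apply K F₁ E x
  have t2 : IsScalarTower F₁ F E := IsScalarTower.of_algebraMap_eq fun _ => rfl
  obtain ⟨γ', hγ'⟩ := FF_iso α s hs _ γ
  have hG : IsGalois K F := FF_galois α s _ γ
  refine ⟨F, inferInstance, inferInstance, a, t1, γ', inferInstance, hG, ?_, ?_⟩
  · intro τ x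
    obtain ⟨σ, hσ⟩ := AlgEquiv.restrictNormalHom_surjective (F := K) (K₁ := F) E τ
    have h1 : ∀ y : F, ((τ y : F) : E) = σ y := by
      intro y
      rw [← hσ]
      exact AlgEquiv.restrictNormal_commutes σ F y
    rw [hγ' σ τ h1]
    apply Subtype.ext
    rw [h1]
    exact hact' σ x
  · exact FF_good α s hs M γ F₁ fun σ => (right_one_iff α s hs _ γ hact' σ).symm

end Pool.Agent.Results.MP_e9d732_al.SplitScholzCover

open Pool.Agent.Results.MP_e9d732_al.SplitScholzCover Pool.Agent.R768.SG in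
theorem Pool.Agent.Results.MP_e9d732_al.SplitScholzCover.result :
    ∀ (K F₁ G : Type) [Field K] [Field F₁] [Algebra K F₁] [FiniteDimensional K F₁]
      [IsGalois K F₁] [Group G] [Finite G] (α : G →* (F₁ ≃ₐ[K] F₁)),
      (∃ s : (F₁ ≃ₐ[K] F₁) →* G, ∀ x, α (s x) = x) → ∀ M : ℕ,
      ∃ (Γ : Type) (_ : Group Γ) (_ : Finite Γ) (c : Γ →* G), Function.Surjective c ∧
        IsMulCommutative c.ker ∧ (∀ q : ℕ, q.Prime → q ∣ Nat.card Γ → q ∣ Nat.card G) ∧
        (∃ s : (F₁ ≃ₐ[K] F₁) →* Γ, ∀ x, α (c (s x)) = x) ∧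
        (HasSolution (α.comp c) → HasLocalSolution α M) := by
  intro K F₁ G _ _ _ _ _ _ _ α ⟨s, hs⟩ M
  have hE : 0 < Nat.card α.ker ^ (M + 1) := pow_pos Nat.card_pos _
  have hfin := scov_finite α s hE
  have hα : Function.Surjective α := fun x => ⟨s x, hs x⟩
  refine ⟨SCov α s (Nat.card α.ker ^ (M + 1)), inferInstance, hfin, spr α s _,
    spr_surj α s hs _, spr_ker_comm α s hs _, scov_prime α s hα (M + 1),
    ⟨SemidirectProduct.inr, fun x => ?_⟩, main α s hs M⟩
  rw [α_spr α s hs]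
  rfl
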